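import Mathlib

set_option autoImplicit false

/-!
Monitoring edge-geodetic sets in permutation graphs: the mandatory vertices form a MEG set.
-/

namespace Pool.Agent.R868.MEG

open SimpleGraph

variable {V : Type*}

/-- `e` is monitored by the pair `a, b`: there is a walk from `a` to `b` and every shortest one
contains `e`. -/
def Monitors (G : SimpleGraph V) (a b : V) (e : Sym2 V) : Prop :=
  G.Reachable a b ∧ ∀ p : G.Walk a b, p.length = G.dist a b → e ∈ p.edges

/-- Monitoring edge-geodetic set. -/
def IsMEG (G : SimpleGraph V) (S : Set V) : Prop :=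
  ∀ e ∈ G.edgeSet, ∃ a ∈ S, ∃ b ∈ S, Monitors G a b e

/-- The mandatory vertices. -/
def Man (G : SimpleGraph V) : Set V := {v | ∀ S : Set V, IsMEG G S → v ∈ S}

lemma Monitors.symm {G : SimpleGraph V} {a b : V} {e : Sym2 V} (h : Monitors G a b e) :
    Monitors G b a e := by
  refine ⟨h.1.symm, fun p hp => ?_⟩
  have := h.2 p.reverse (by rw [Walk.length_reverse, hp, dist_comm])
  simpa using this

/-- The ball of radius `j` about `b`. -/
def Ball (G : SimpleGraph V) (b : V) (j : ℕ) (z : V) : Prop := ∃ p : G.Walk z b, p.length ≤ j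

section ball

variable {G : SimpleGraph V} {b : V}

lemma ball_self (j : ℕ) : Ball G b j b := ⟨Walk.nil, by simp⟩

lemma ball_mono {i j : ℕ} (h : i ≤ j) {z : V} (hz : Ball G b i z) : Ball G b j z := by
  obtain ⟨p, hp⟩ := hz; exact ⟨p, hp.trans h⟩

lemma ball_zero {z : V} (hz : Ball G b 0 z) : z = b := by
  obtain ⟨p, hp⟩ := hz
  cases p with
  | nil => rfl
  | cons h q => simp at hp

lemma ball_adj {j : ℕ} {x y : V} (h : G.Adj x y) (hy : Ball G b j y) : Ball G b (j + 1) x := by
  obtain ⟨p, hp⟩ := hy
  exact ⟨Walk.cons h p, by simpa using hp⟩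

lemma ball_succ {j : ℕ} {z : V} (hz : Ball G b (j + 1) z) (hne : z ≠ b) :
    ∃ t, G.Adj z t ∧ Ball G b j t := by
  obtain ⟨p, hp⟩ := hz
  cases p with
  | nil => exact absurd rfl hne
  | cons h q => exact ⟨_, h, q, by simpa using hp⟩

end ball

/-- The two linear orders of a permutation graph. -/
structure Rep (G : SimpleGraph V) (f g : V → ℤ) : Prop where
  finj : Function.Injective f
  ginj : Function.Injective g
  adj : ∀ u v, G.Adj u v ↔ (f u < f v ∧ g v < g u) ∨ (f v < f u ∧ g u < g v)

lemma Rep.swap {G : SimpleGraph V} {f g : V → ℤ} (h : Rep G f g) : Rep G g f :=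
  ⟨h.ginj, h.finj, fun u v => by rw [h.adj]; tauto⟩

lemma Rep.neg {G : SimpleGraph V} {f g : V → ℤ} (h : Rep G f g) :
    Rep G (fun v => - f v) (fun v => - g v) :=
  ⟨fun x y hxy => h.finj (by simpa using hxy), fun x y hxy => h.ginj (by simpa using hxy),
    fun u v => by rw [h.adj]; simp only [neg_lt_neg_iff]; tauto⟩

section rep

variable {G : SimpleGraph V} {f g : V → ℤ} {b : V}

lemma between (h : Rep G f g) {t z : V} (p : G.Walk t b) (h1 : f t < f z) (h2 : g t < g z)
    (h3 : f z < f b) (h4 : g z < g b) : Ball G b p.length z := by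
  induction p with
  | nil => exact absurd (h1.trans h3) (lt_irrefl _)
  | @cons u v w hadj q ih =>
    rw [Walk.length_cons]
    rcases lt_trichotomy (f v) (f z) with hf | hf | hf
    · rcases lt_trichotomy (g v) (g z) with hg | hg | hg
      · exact ball_mono (Nat.le_succ _) (ih hf hg h3 h4)
      · have := h.ginj hg; subst this; exact absurd hf (lt_irrefl _)
      · exact ball_adj ((h.adj _ _).2 (Or.inr ⟨hf, hg⟩)) ⟨q, le_rfl⟩
    · have := h.finj hf; subst this
      exact ⟨q, Nat.le_succ _⟩
    · rcases lt_trichotomy (g v) (g z) with hg | hg | hg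
      · exact ball_adj ((h.adj _ _).2 (Or.inl ⟨hf, hg⟩)) ⟨q, le_rfl⟩
      · have := h.ginj hg; subst this; exact absurd hf (lt_irrefl _)
      · exfalso
        rcases (h.adj _ _).1 hadj with hh | hh
        · omega
        · omega

/-- A vertex below `b` which is not below a vertex of the ball of radius `j` lies in the ball of
radius `j + 1`. -/
lemma ball_of_lt (h : Rep G f g) {j : ℕ} {t z : V} (hz1 : f z < f b) (hz2 : g z < g b)
    (ht : Ball G b j t) (hh : f t < f z ∨ g t < g z) : Ball G b (j + 1) z := by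
  by_cases h1 : f t < f z
  · by_cases h2 : g t < g z
    · obtain ⟨p, hp⟩ := ht
      exact ball_mono (hp.trans (Nat.le_succ _)) (between h p h1 h2 hz1 hz2)
    · have h3 : g t ≠ g z := fun he => by have := h.ginj he; subst this; exact lt_irrefl _ h1
      exact ball_adj ((h.adj _ _).2 (Or.inr ⟨h1, by omega⟩)) ht
  · have h2 : g t < g z := by tauto
    have h3 : f t ≠ f z := fun he => by have := h.finj he; subst this; exact lt_irrefl _ h2
    exact ball_adj ((h.adj _ _).2 (Or.inl ⟨by omega, h2⟩)) ht

/-- All vertices of the ball of radius `k` are above `a` if `a` is below `b` and not in the ball of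
radius `k + 1`. -/
lemma above (h : Rep G f g) {a : V} {k : ℕ} (ha1 : f a < f b) (ha2 : g a < g b)
    (hna : ¬ Ball G b (k + 1) a) {t : V} (ht : Ball G b k t) : f a < f t ∧ g a < g t := by
  have hta : t ≠ a := fun he => hna (he ▸ ball_mono (Nat.le_succ _) ht)
  have h1 : f t ≠ f a := fun he => hta (h.finj he)
  have h2 : g t ≠ g a := fun he => hta (h.ginj he)
  constructor
  · by_contra hc
    exact hna (ball_of_lt h ha1 ha2 ht (Or.inl (by omega)))
  · by_contra hc
    exact hna (ball_of_lt h ha1 ha2 ht (Or.inr (by omega)))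

/-- The extension step. -/
lemma extend_left [Finite V] (h : Rep G f g) {a : V} {k : ℕ} (ha1 : f a < f b) (ha2 : g a < g b)
    (ha : Ball G b (k + 2) a) (hna : ¬ Ball G b (k + 1) a)
    (hR : ∀ t, Ball G b (k + 1) t → g a < g t)
    (hN : ∀ w, G.Adj a w → ∃ x, G.Adj a x ∧ ¬ G.Adj x w ∧ x ≠ w ∧
      ∀ z, G.Adj x z → G.Adj w z → z = a) :
    ∃ a', G.Adj a' a ∧ ¬ Ball G b (k + 2) a' ∧ ∀ z, G.Adj a' z → Ball G b (k + 2) z → z = a := by
  have hab : a ≠ b := fun he => by rw [he] at ha1; exact lt_irrefl _ ha1
  -- a vertex of the ball to the left of `a`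
  obtain ⟨p, hpa, hp⟩ := ball_succ ha hab
  have hp1 : f p < f a ∧ g a < g p := by
    rcases (h.adj _ _).1 hpa with hh | hh
    · have := hR p hp; omega
    · exact hh
  -- the lowest vertex of the ball
  obtain ⟨r, hr, hrmin⟩ := Set.exists_min_image {t | Ball G b (k + 1) t} g (Set.toFinite _)
    ⟨b, ball_self _⟩
  have hr : Ball G b (k + 1) r := hr
  have hrmin : ∀ t, Ball G b (k + 1) t → g r ≤ g t := hrmin
  have hgr := hR r hr
  have hfr : f a < f r := by
    by_cases hrb : r = b
    · rw [hrb]; exact ha1
    by_contra hc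
    obtain ⟨t, hrt, ht⟩ := ball_succ hr hrb
    have h1 := above h ha1 ha2 hna ht
    have h2 := hrmin t (ball_mono (Nat.le_succ _) ht)
    rcases (h.adj _ _).1 hrt with hh | hh
    · omega
    · omega
  -- the leftmost vertex which is not below `r`
  obtain ⟨q, hq, hqmin⟩ := Set.exists_min_image {z | g r ≤ g z} f (Set.toFinite _)
    ⟨r, le_refl (g r)⟩
  have hq : g r ≤ g q := hq
  have hqmin : ∀ z, g r ≤ g z → f q ≤ f z := hqmin
  have hfq : f q < f a := lt_of_le_of_lt (hqmin p (hrmin p hp)) hp1.1
  have hqr : g r < g q := by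
    refine lt_of_le_of_ne hq fun he => ?_
    have := h.ginj he; subst this; omega
  obtain ⟨x, hax, hxq, hxq', hx⟩ := hN q ((h.adj _ _).2 (Or.inr ⟨hfq, by omega⟩))
  have hfx : f x ≠ f q := fun he => hxq' (h.finj he)
  have hgx : g x ≠ g q := fun he => hxq' (h.ginj he)
  have hfx' : f x < f q := by
    by_contra hc
    have hc : f q < f x := by omega
    have hgc : g q < g x := by
      by_contra hcc
      exact hxq ((h.adj _ _).2 (Or.inr ⟨hc, by omega⟩))
    have hxa : f x < f a := by
      rcases (h.adj _ _).1 hax with hh | hh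
      · omega
      · exact hh.1
    have : r = a := hx r ((h.adj _ _).2 (Or.inl ⟨by omega, by omega⟩))
      ((h.adj _ _).2 (Or.inl ⟨by omega, by omega⟩))
    rw [this] at hfr
    exact lt_irrefl _ hfr
  have hgx' : g x < g r := by
    by_contra hc
    have := hqmin x (by omega)
    omega
  have hxa : f x < f a ∧ g a < g x := by
    rcases (h.adj _ _).1 hax with hh | hh
    · omega
    · exact hh
  have hxb : x ≠ b := fun he => by rw [he] at hxa; omega
  refine ⟨x, hax.symm, fun hB => ?_, fun z hxz hz => ?_⟩
  · obtain ⟨t, hxt, ht⟩ := ball_succ hB hxb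
    have h1 := hrmin t ht
    have h2 := hqmin t h1
    rcases (h.adj _ _).1 hxt with hh | hh
    · omega
    · omega
  · rcases (h.adj _ _).1 hxz with hh | hh
    · -- `z` is to the right of and below `x`
      have hzb : z ≠ b := fun he => by
        have := hrmin b (ball_self _)
        rw [he] at hh; omega
      obtain ⟨t, hzt, ht⟩ := ball_succ hz hzb
      have h1 := hrmin t ht
      have h2 := hqmin t h1
      have hfz : f t < f z := by
        rcases (h.adj _ _).1 hzt with h3 | h3
        · omega
        · exact h3.1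
      exact hx z hxz ((h.adj _ _).2 (Or.inl ⟨by omega, by omega⟩))
    · exfalso
      have hzb : z ≠ b := fun he => by rw [he] at hh; omega
      have hgz : g z < g r := by
        by_contra hc
        have := hqmin z (by omega)
        omega
      obtain ⟨t, hzt, ht⟩ := ball_succ hz hzb
      have h1 := hrmin t ht
      have h2 := hqmin t h1
      rcases (h.adj _ _).1 hzt with h3 | h3
      · omega
      · omega

/-- Two internally disjoint shortest walks. -/
lemma two_walks [Finite V] (h : Rep G f g) : ∀ (j : ℕ) (p r : V),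
    Ball G b (j + 1) p → ¬ Ball G b j p → (∀ t, Ball G b (j + 1) t → f p ≤ f t) →
    Ball G b (j + 1) r → ¬ Ball G b j r → (∀ t, Ball G b (j + 1) t → g r ≤ g t) →
    ∃ (A : G.Walk p b) (C : G.Walk r b), A.length = j + 1 ∧ C.length = j + 1 ∧
      ∀ x, x ∈ A.support → x ∈ C.support → x = b := by
  intro j
  induction j with
  | zero =>
    intro p r hp hp0 hpm hr hr0 hrm
    have hpb : p ≠ b := fun he => hp0 (he ▸ ball_self _)
    have hrb : r ≠ b := fun he => hr0 (he ▸ ball_self _)
    obtain ⟨t, hpt, ht⟩ := ball_succ hp hpb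
    obtain ⟨s, hrs, hs⟩ := ball_succ hr hrb
    have ht := ball_zero ht
    have hs := ball_zero hs
    subst ht
    subst hs
    refine ⟨Walk.cons hpt Walk.nil, Walk.cons hrs Walk.nil, by simp, by simp, ?_⟩
    intro x hx hx'
    simp only [Walk.support_cons, Walk.support_nil, List.mem_cons, List.not_mem_nil,
      or_false] at hx hx'
    rcases hx with rfl | hx
    · rcases hx' with rfl | hx'
      · exfalso
        have h1 := hpm s (ball_self _)
        have h2 := hrm s (ball_self _)
        rcases (h.adj _ _).1 hpt with hh | hh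
        · omega
        · omega
      · exact hx'
    · exact hx
  | succ j ih =>
    intro p r hp hp0 hpm hr hr0 hrm
    have hpb : p ≠ b := fun he => hp0 (he ▸ ball_self _)
    have hrb : r ≠ b := fun he => hr0 (he ▸ ball_self _)
    obtain ⟨p', hp', hpm'⟩ := Set.exists_min_image {t | Ball G b (j + 1) t} f (Set.toFinite _)
      ⟨b, ball_self _⟩
    obtain ⟨r', hr', hrm'⟩ := Set.exists_min_image {t | Ball G b (j + 1) t} g (Set.toFinite _)
      ⟨b, ball_self _⟩
    have hp' : Ball G b (j + 1) p' := hp'
    have hr' : Ball G b (j + 1) r' := hr'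
    have hpm' : ∀ t, Ball G b (j + 1) t → f p' ≤ f t := hpm'
    have hrm' : ∀ t, Ball G b (j + 1) t → g r' ≤ g t := hrm'
    have hpr' : G.Adj p r' := by
      obtain ⟨t, hpt, ht⟩ := ball_succ hp hpb
      have h1 := hpm t (ball_mono (Nat.le_succ _) ht)
      have h2 := hrm' t ht
      have h3 := hpm r' (ball_mono (Nat.le_succ _) hr')
      have h4 : f p ≠ f r' := fun he => hp0 (by rw [h.finj he]; exact hr')
      refine (h.adj _ _).2 (Or.inl ⟨by omega, ?_⟩)
      rcases (h.adj _ _).1 hpt with hh | hh
      · omega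
      · omega
    have hrp' : G.Adj r p' := by
      obtain ⟨t, hrt, ht⟩ := ball_succ hr hrb
      have h1 := hrm t (ball_mono (Nat.le_succ _) ht)
      have h2 := hpm' t ht
      have h3 := hrm p' (ball_mono (Nat.le_succ _) hp')
      have h4 : g r ≠ g p' := fun he => hr0 (by rw [h.ginj he]; exact hp')
      refine (h.adj _ _).2 (Or.inr ⟨?_, by omega⟩)
      rcases (h.adj _ _).1 hrt with hh | hh
      · omega
      · omega
    have hp0' : ¬ Ball G b j p' := fun hc => hr0 (ball_adj hrp' hc)
    have hr0' : ¬ Ball G b j r' := fun hc => hp0 (ball_adj hpr' hc)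
    obtain ⟨A, C, hA, hC, hAC⟩ := ih p' r' hp' hp0' hpm' hr' hr0' hrm'
    have hpr : p ≠ r := by
      intro he
      obtain ⟨t, hpt, ht⟩ := ball_succ hp hpb
      have h1 := hpm t (ball_mono (Nat.le_succ _) ht)
      have h2 := hrm t (ball_mono (Nat.le_succ _) ht)
      rw [← he] at h2
      rcases (h.adj _ _).1 hpt with hh | hh
      · omega
      · omega
    have hsupp : ∀ {u v : V} (P : G.Walk u b), P.length = j + 1 → v ∈ P.support →
        Ball G b (j + 1) v := by
      classical
      intro u v P hP hv
      exact ⟨P.dropUntil v hv, (P.length_dropUntil_le_length hv).trans hP.le⟩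
    refine ⟨Walk.cons hpr' C, Walk.cons hrp' A, by simp [hC], by simp [hA], ?_⟩
    intro x hx hx'
    simp only [Walk.support_cons, List.mem_cons] at hx hx'
    rcases hx with rfl | hx
    · rcases hx' with hx' | hx'
      · exact absurd hx' hpr
      · exact absurd (hsupp A hA hx') hp0
    · rcases hx' with rfl | hx'
      · exact absurd (hsupp C hC hx) hr0
      · exact hAC x hx' hx

end rep

end Pool.Agent.R868.MEG
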