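import Pool.Agent.R868.MEG.Core

set_option autoImplicit false

namespace Pool.Agent.R868.MEG

open SimpleGraph

variable {V : Type*}

section rep

variable {G : SimpleGraph V} {f g : V → ℤ} {b : V}

/-- If the ball of radius `k + 1` has vertices to the left of `a` and below `a` then no edge is on
all shortest walks. -/
lemma no_both [Finite V] (h : Rep G f g) {a : V} {k : ℕ} (ha1 : f a < f b) (ha2 : g a < g b)
    (hna : ¬ Ball G b (k + 1) a)
    {p₀ r₀ : V} (hp₀ : Ball G b (k + 1) p₀) (hp₀' : f p₀ < f a)
    (hr₀ : Ball G b (k + 1) r₀) (hr₀' : g r₀ < g a) :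
    ∃ (A C : G.Walk a b), A.length = k + 2 ∧ C.length = k + 2 ∧
      ∀ e, e ∈ A.edges → e ∈ C.edges → False := by
  obtain ⟨p, hp, hpm⟩ := Set.exists_min_image {t | Ball G b (k + 1) t} f (Set.toFinite _)
    ⟨b, ball_self _⟩
  obtain ⟨r, hr, hrm⟩ := Set.exists_min_image {t | Ball G b (k + 1) t} g (Set.toFinite _)
    ⟨b, ball_self _⟩
  have hp : Ball G b (k + 1) p := hp
  have hr : Ball G b (k + 1) r := hr
  have hpm : ∀ t, Ball G b (k + 1) t → f p ≤ f t := hpm
  have hrm : ∀ t, Ball G b (k + 1) t → g r ≤ g t := hrm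
  have hpa : f p < f a := lt_of_le_of_lt (hpm _ hp₀) hp₀'
  have hra : g r < g a := lt_of_le_of_lt (hrm _ hr₀) hr₀'
  have hp0 : ¬ Ball G b k p := fun hc => by have := above h ha1 ha2 hna hc; omega
  have hr0 : ¬ Ball G b k r := fun hc => by have := above h ha1 ha2 hna hc; omega
  obtain ⟨A, C, hA, hC, hAC⟩ := two_walks h k p r hp hp0 hpm hr hr0 hrm
  have hpg : g a < g p := by
    rcases lt_trichotomy (g p) (g a) with hh | hh | hh
    · exfalso
      obtain ⟨w, hw⟩ := hp
      exact hna (ball_mono hw (between h w hpa hh ha1 ha2))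
    · exfalso; have := h.ginj hh; subst this; exact lt_irrefl _ hpa
    · exact hh
  have hrf : f a < f r := by
    rcases lt_trichotomy (f r) (f a) with hh | hh | hh
    · exfalso
      obtain ⟨w, hw⟩ := hr
      exact hna (ball_mono hw (between h w hh hra ha1 ha2))
    · exfalso; have := h.finj hh; subst this; exact lt_irrefl _ hra
    · exact hh
  have hap : G.Adj a p := (h.adj _ _).2 (Or.inr ⟨hpa, hpg⟩)
  have har : G.Adj a r := (h.adj _ _).2 (Or.inl ⟨hrf, hra⟩)
  have hab : a ≠ b := fun he => by rw [he] at ha1; exact lt_irrefl _ ha1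
  have hsupp : ∀ {u v : V} (P : G.Walk u b), P.length = k + 1 → v ∈ P.support →
      Ball G b (k + 1) v := by
    classical
    intro u v P hP hv
    exact ⟨P.dropUntil v hv, (P.length_dropUntil_le_length hv).trans hP.le⟩
  have haA : a ∉ A.support := fun hc => hna (hsupp A hA hc)
  have haC : a ∉ C.support := fun hc => hna (hsupp C hC hc)
  refine ⟨Walk.cons hap A, Walk.cons har C, by simp [hA], by simp [hC], ?_⟩
  intro e he he'
  rw [Walk.edges_cons, List.mem_cons] at he he'
  rcases he with rfl | he
  · rcases he' with he' | he'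
    · rw [Sym2.eq_iff] at he'
      rcases he' with ⟨_, hpr⟩ | ⟨har', _⟩
      · rw [hpr] at hpa; omega
      · exact haC (by rw [har']; exact C.start_mem_support)
    · exact haC (C.fst_mem_support_of_mem_edges he')
  · induction e with
    | _ x y =>
      rcases he' with he' | he'
      · rw [Sym2.eq_iff] at he'
        rcases he' with ⟨rfl, _⟩ | ⟨_, rfl⟩
        · exact haA (A.fst_mem_support_of_mem_edges he)
        · exact haA (A.snd_mem_support_of_mem_edges he)
      · have hx := hAC x (A.fst_mem_support_of_mem_edges he) (C.fst_mem_support_of_mem_edges he')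
        have hy := hAC y (A.snd_mem_support_of_mem_edges he) (C.snd_mem_support_of_mem_edges he')
        have hxy := A.adj_of_mem_edges he
        rw [hx, hy] at hxy
        exact hxy.ne rfl

end rep

/-- Neighbours beyond a vertex that is not mandatory. -/
lemma core {G : SimpleGraph V} {s t a w : V} (hm : Monitors G s t s(a, w)) (haw : G.Adj a w)
    (hs : s ≠ a) (p1 : G.Walk s a) (p2 : G.Walk w t)
    (hl : p1.length + 1 + p2.length = G.dist s t) :
    ∃ x, G.Adj a x ∧ ¬ G.Adj x w ∧ x ≠ w ∧ ∀ z, G.Adj x z → G.Adj w z → z = a := by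
  classical
  obtain ⟨x, hax, q, hq⟩ : ∃ x, ∃ _ : G.Adj a x, ∃ q : G.Walk x s, q.length + 1 = p1.length := by
    have hlen := p1.length_reverse
    cases hc : p1.reverse with
    | nil => exact absurd rfl hs
    | cons h q => exact ⟨_, h, q, by rw [← hlen, hc]; simp⟩
  have hxw : x ≠ w := by
    rintro rfl
    have := dist_le (q.reverse.append p2)
    rw [Walk.length_append, Walk.length_reverse] at this
    omega
  have hxw' : ¬ G.Adj x w := by
    intro hadj
    have := dist_le (q.reverse.append (Walk.cons hadj p2))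
    rw [Walk.length_append, Walk.length_reverse, Walk.length_cons] at this
    omega
  refine ⟨x, hax, hxw', hxw, fun z hxz hwz => ?_⟩
  by_contra hza
  have hmem := hm.2 (q.reverse.append (Walk.cons hxz (Walk.cons hwz.symm p2))) (by
    rw [Walk.length_append, Walk.length_reverse, Walk.length_cons, Walk.length_cons]
    omega)
  rw [Walk.edges_append, List.mem_append, Walk.edges_cons, Walk.edges_cons, List.mem_cons,
    List.mem_cons] at hmem
  rcases hmem with hmem | hmem | hmem | hmem
  · have hw : w ∈ q.reverse.support := Walk.snd_mem_support_of_mem_edges _ hmem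
    have := dist_le ((q.reverse.takeUntil w hw).append p2)
    rw [Walk.length_append] at this
    have h2 := q.reverse.length_takeUntil_le_length hw
    rw [Walk.length_reverse] at h2
    omega
  · rw [Sym2.eq_iff] at hmem
    rcases hmem with ⟨rfl, _⟩ | ⟨_, rfl⟩
    · exact hax.ne rfl
    · exact hxw rfl
  · rw [Sym2.eq_iff] at hmem
    rcases hmem with ⟨rfl, _⟩ | ⟨rfl, _⟩
    · exact hza rfl
    · exact haw.ne rfl
  · have ha : a ∈ p2.support := Walk.fst_mem_support_of_mem_edges _ hmem
    have := dist_le (p1.append (p2.dropUntil a ha))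
    rw [Walk.length_append] at this
    have h2 := p2.length_dropUntil_le_length ha
    omega

lemma split {G : SimpleGraph V} {s t : V} (p : G.Walk s t) {a w : V} (h : s(a, w) ∈ p.edges) :
    (∃ (p1 : G.Walk s a) (p2 : G.Walk w t), p1.length + 1 + p2.length = p.length) ∨
    (∃ (p1 : G.Walk s w) (p2 : G.Walk a t), p1.length + 1 + p2.length = p.length) := by
  induction p with
  | nil => simp at h
  | @cons u v z hadj q ih =>
    rw [Walk.edges_cons, List.mem_cons] at h
    rcases h with h | h
    · rw [Sym2.eq_iff] at h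
      rcases h with ⟨rfl, rfl⟩ | ⟨rfl, rfl⟩
      · exact Or.inl ⟨Walk.nil, q, by simp; omega⟩
      · exact Or.inr ⟨Walk.nil, q, by simp; omega⟩
    · rcases ih h with ⟨p1, p2, h12⟩ | ⟨p1, p2, h12⟩
      · exact Or.inl ⟨Walk.cons hadj p1, p2, by simp; omega⟩
      · exact Or.inr ⟨Walk.cons hadj p1, p2, by simp; omega⟩

lemma not_man {G : SimpleGraph V} {a : V} (ha : a ∉ Man G) {w : V} (haw : G.Adj a w) :
    ∃ x, G.Adj a x ∧ ¬ G.Adj x w ∧ x ≠ w ∧ ∀ z, G.Adj x z → G.Adj w z → z = a := by
  have ha' : ∃ S : Set V, IsMEG G S ∧ a ∉ S := by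
    by_contra hc
    push Not at hc
    exact ha hc
  obtain ⟨S, hS, haS⟩ := ha'
  obtain ⟨s, hs, t, ht, hm⟩ := hS s(a, w) haw
  obtain ⟨p, hp⟩ := hm.1.exists_walk_length_eq_dist
  have hsa : s ≠ a := fun he => haS (he ▸ hs)
  have hta : t ≠ a := fun he => haS (he ▸ ht)
  rcases split p (hm.2 p hp) with ⟨p1, p2, h12⟩ | ⟨p1, p2, h12⟩
  · exact core hm haw hsa p1 p2 (h12.trans hp)
  · exact core hm.symm haw hta p2.reverse p1.reverse (by
      rw [Walk.length_reverse, Walk.length_reverse, dist_comm, ← hp, ← h12]; omega)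

/-- From an extension of a monitoring pair at one end. -/
lemma monitors_of_step {G : SimpleGraph V} {a a' b : V} {e : Sym2 V} {d : ℕ}
    (hm : Monitors G a b e) (hd : G.dist a b = d) (haa : G.Adj a' a) (hB : ¬ Ball G b d a')
    (hz : ∀ z, G.Adj a' z → Ball G b d z → z = a) :
    Monitors G a' b e ∧ G.dist a' b = d + 1 := by
  obtain ⟨q, hq⟩ := hm.1.exists_walk_length_eq_dist
  have hle : G.dist a' b ≤ d + 1 := by
    have := dist_le (Walk.cons haa q)
    rwa [Walk.length_cons, hq, hd] at this
  have hr : G.Reachable a' b := ⟨Walk.cons haa q⟩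
  have hge : d + 1 ≤ G.dist a' b := by
    obtain ⟨p, hp⟩ := hr.exists_walk_length_eq_dist
    by_contra hc
    exact hB ⟨p, by omega⟩
  have hdist : G.dist a' b = d + 1 := le_antisymm hle hge
  refine ⟨⟨hr, fun p hp => ?_⟩, hdist⟩
  rw [hdist] at hp
  cases p with
  | nil => simp at hp
  | cons h p' =>
    rw [Walk.length_cons] at hp
    have := hz _ h ⟨p', by omega⟩
    subst this
    rw [Walk.edges_cons]
    exact List.mem_cons_of_mem _ (hm.2 p' (by omega))

/-- The extension of a monitoring pair whose first vertex is not mandatory and lies below the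
second one. -/
lemma extend_lt [Finite V] {G : SimpleGraph V} {f g : V → ℤ} (h : Rep G f g) {a b : V}
    {e : Sym2 V} {k : ℕ} (hm : Monitors G a b e) (hd : G.dist a b = k + 2)
    (ha1 : f a < f b) (ha2 : g a < g b) (ha : a ∉ Man G) :
    ∃ a', Monitors G a' b e ∧ G.dist a' b = k + 3 := by
  have hN : ∀ w, G.Adj a w → ∃ x, G.Adj a x ∧ ¬ G.Adj x w ∧ x ≠ w ∧
      ∀ z, G.Adj x z → G.Adj w z → z = a := fun w hw => not_man ha hw
  obtain ⟨q, hq⟩ := hm.1.exists_walk_length_eq_dist
  have hB : Ball G b (k + 2) a := ⟨q, by omega⟩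
  have hnB : ¬ Ball G b (k + 1) a := by
    rintro ⟨p, hp⟩
    have := dist_le p
    omega
  by_cases hR : ∀ t, Ball G b (k + 1) t → g a < g t
  · obtain ⟨a', h1, h2, h3⟩ := extend_left h ha1 ha2 hB hnB hR hN
    exact ⟨a', monitors_of_step hm hd h1 h2 h3⟩
  by_cases hL : ∀ t, Ball G b (k + 1) t → f a < f t
  · obtain ⟨a', h1, h2, h3⟩ := extend_left h.swap ha2 ha1 hB hnB hL hN
    exact ⟨a', monitors_of_step hm hd h1 h2 h3⟩
  exfalso
  push Not at hR hL
  obtain ⟨r, hr, hr'⟩ := hR
  obtain ⟨p, hp, hp'⟩ := hL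
  have hra : g r ≠ g a := fun he => hnB (by rw [← h.ginj he]; exact hr)
  have hpa : f p ≠ f a := fun he => hnB (by rw [← h.finj he]; exact hp)
  obtain ⟨A, C, hA, hC, hAC⟩ := no_both h ha1 ha2 hnB hp (by omega) hr (by omega)
  exact hAC e (hm.2 A (by omega)) (hm.2 C (by omega))

/-- The extension of a monitoring pair whose first vertex is not mandatory. -/
lemma extend [Finite V] {G : SimpleGraph V} {f g : V → ℤ} (h : Rep G f g) {a b : V}
    {e : Sym2 V} (hm : Monitors G a b e) (ha : a ∉ Man G) :
    ∃ a', Monitors G a' b e ∧ G.dist a b < G.dist a' b := by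
  obtain ⟨q, hq⟩ := hm.1.exists_walk_length_eq_dist
  rcases Nat.lt_or_ge (G.dist a b) 2 with hd | hd
  · rcases Nat.lt_or_ge (G.dist a b) 1 with hd' | hd'
    · exfalso
      have he := hm.2 q hq
      cases q with
      | nil => simp at he
      | cons h q => simp at hq; omega
    · have hd1 : G.dist a b = 1 := by omega
      have hab : G.Adj a b := dist_eq_one_iff_adj.1 hd1
      obtain ⟨x, hax, hxb, hxb', hx⟩ := not_man ha hab
      refine ⟨x, ?_⟩
      have := monitors_of_step (d := 1) hm hd1 hax.symm ?_ ?_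
      · exact ⟨this.1, by omega⟩
      · intro hB
        obtain ⟨t, hxt, ht⟩ := ball_succ (j := 0) hB hxb'
        rw [ball_zero ht] at hxt
        exact hxb hxt
      · intro z hxz hz
        by_cases hzb : z = b
        · exact absurd (hzb ▸ hxz) hxb
        obtain ⟨t, hzt, ht⟩ := ball_succ (j := 0) hz hzb
        rw [ball_zero ht] at hzt
        exact hx z hxz hzt.symm
  · obtain ⟨k, hk⟩ : ∃ k, G.dist a b = k + 2 := ⟨G.dist a b - 2, by omega⟩
    have hnab : ¬ G.Adj a b := fun hadj => by
      have := dist_eq_one_iff_adj.2 hadj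
      omega
    have hab : a ≠ b := fun he => by rw [he, dist_self] at hk; omega
    have hf : f a ≠ f b := fun he => hab (h.finj he)
    have hg : g a ≠ g b := fun he => hab (h.ginj he)
    rw [h.adj] at hnab
    rcases lt_or_gt_of_ne hf with hf' | hf'
    · have hg' : g a < g b := by
        by_contra hc
        exact hnab (Or.inl ⟨hf', by omega⟩)
      obtain ⟨a', h1, h2⟩ := extend_lt h hm hk hf' hg' ha
      exact ⟨a', h1, by omega⟩
    · have hg' : g b < g a := by
        by_contra hc
        exact hnab (Or.inr ⟨hf', by omega⟩)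
      obtain ⟨a', h1, h2⟩ := extend_lt h.neg hm hk (by simpa using hf') (by simpa using hg') ha
      exact ⟨a', h1, by omega⟩

/-- The mandatory vertices of a permutation graph form a MEG set. -/
theorem man_isMEG [Finite V] {G : SimpleGraph V} {f g : V → ℤ} (h : Rep G f g) :
    IsMEG G (Man G) := by
  intro e he
  induction e with
  | _ u v =>
    have huv : G.Adj u v := he
    have hm : Monitors G u v s(u, v) := by
      refine ⟨huv.reachable, fun p hp => ?_⟩
      rw [dist_eq_one_iff_adj.2 huv] at hp
      cases p with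
      | nil => simp at hp
      | cons h q =>
        cases q with
        | nil => simp
        | cons h q => simp at hp
    obtain ⟨⟨a, b⟩, hab, hmax⟩ := Set.exists_max_image
      {x : V × V | Monitors G x.1 x.2 s(u, v)} (fun x => G.dist x.1 x.2) (Set.toFinite _)
      ⟨(u, v), hm⟩
    have hab : Monitors G a b s(u, v) := hab
    have hmax : ∀ x y, Monitors G x y s(u, v) → G.dist x y ≤ G.dist a b :=
      fun x y hxy => hmax (x, y) hxy
    refine ⟨a, ?_, b, ?_, hab⟩
    · by_contra ha
      obtain ⟨a', h1, h2⟩ := extend h hab ha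
      have := hmax a' b h1
      omega
    · by_contra hb
      obtain ⟨b', h1, h2⟩ := extend h hab.symm hb
      have := hmax b' a h1
      rw [dist_comm] at h2
      omega

end Pool.Agent.R868.MEG
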